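import Pool.Agent.R489.HB.Stm

set_option autoImplicit false

namespace Pool.Agent.R783.HB

open Finset Pool.Agent.R489.HB

theorem FCM : S_FCM := by
  intro W _ Φ a hFC T hT hsub hmono
  obtain ⟨x, y, z, hxy, hxz, hyz, rfl⟩ := Finset.card_eq_three.1 hT
  have m1 : ({x, y} : Finset W) ∈ ({x, y, z} : Finset W).powersetCard 2 := by
    rw [mem_powersetCard]
    exact ⟨by intro w; simp; tauto, card_pair hxy⟩
  have m2 : ({y, z} : Finset W) ∈ ({x, y, z} : Finset W).powersetCard 2 := by
    rw [mem_powersetCard]
    exact ⟨by intro w; simp; tauto, card_pair hyz⟩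
  have m3 : ({x, z} : Finset W) ∈ ({x, y, z} : Finset W).powersetCard 2 := by
    rw [mem_powersetCard]
    exact ⟨by intro w; simp; tauto, card_pair hxz⟩
  have hm : ∀ e ∈ ({x, y, z} : Finset W).powersetCard 2, e ∈ edg Φ ∧ mono a e := by
    intro e he
    refine ⟨hsub he, fun p hp q hq => ?_⟩
    have hs := (mem_powersetCard.1 he).1
    exact hmono p (hs hp) q (hs hq)
  have n12 : ({x, y} : Finset W) ≠ {y, z} := fun h => by
    have : x ∈ ({y, z} : Finset W) := h ▸ (by simp)
    simp at this
    tauto
  have n13 : ({x, y} : Finset W) ≠ {x, z} := fun h => by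
    have : y ∈ ({x, z} : Finset W) := h ▸ (by simp)
    simp at this
    rcases this with h | h
    · exact hxy h.symm
    · exact hyz h
  have n23 : ({y, z} : Finset W) ≠ {x, z} := fun h => by
    have : y ∈ ({x, z} : Finset W) := h ▸ (by simp)
    simp at this
    rcases this with h | h
    · exact hxy h.symm
    · exact hyz h
  have hli := (linearIndepOn_iff'.1 hFC) {{x, y}, {y, z}, {x, z}} (fun _ => 1)
    (by
      intro e he
      simp only [coe_insert, coe_singleton, Set.mem_insert_iff, Set.mem_singleton_iff] at he
      rcases he with rfl | rfl | rfl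
      · exact hm _ m1
      · exact hm _ m2
      · exact hm _ m3)
    (by
      rw [sum_insert (by simp [n12, n13]), sum_insert (by simp [n23]), sum_singleton]
      funext w
      simp only [one_smul, Pi.add_apply, Pi.zero_apply, ind, mem_insert, mem_singleton]
      by_cases h1 : w = x
      · subst h1
        simp only [true_or, if_true, hxy, hxz, or_self, if_false, zero_add]
        exact (by decide : (1 : ZMod 2) + 1 = 0)
      · by_cases h2 : w = y
        · subst h2
          simp only [or_true, true_or, if_true, h1, hyz, or_self, if_false, add_zero]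
          exact (by decide : (1 : ZMod 2) + 1 = 0)
        · by_cases h3 : w = z
          · subst h3
            simp only [h1, h2, or_self, if_false, or_true, if_true, zero_add]
            exact (by decide : (1 : ZMod 2) + 1 = 0)
          · simp only [h1, h2, h3, or_self, if_false, add_zero])
    {x, y} (by simp)
  exact one_ne_zero hli

end Pool.Agent.R783.HB
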